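import Pool.Agent.H2.VrE

set_option autoImplicit false
open Filter Topology Set MeasureTheory

namespace Pool.Agent.Results.MP_1755e3_an.Bounded

/-- the graph of `g` in the Euclidean plane -/
def graph (g : ℝ → ℝ) : Set (EuclideanSpace ℝ (Fin 2)) :=
  range fun x : ℝ => (WithLp.toLp 2 ![x, g x] : EuclideanSpace ℝ (Fin 2))

/-- `f` is vertically rigid for the set `C`: for each `c ∈ C` some isometry of the plane carries
the graph of `c f` onto the graph of `f` -/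
def RigidFor (C : Set ℝ) (f : ℝ → ℝ) : Prop :=
  ∀ c ∈ C, ∃ φ : EuclideanSpace ℝ (Fin 2) ≃ᵢ EuclideanSpace ℝ (Fin 2),
    φ '' graph (fun x => c * f x) = graph f

/-- `f` equals `a + b x` or `a + b e^{k x}` for `l`-almost all `x` -/
def Form (l : Filter ℝ) (f : ℝ → ℝ) : Prop :=
  ∃ a b k : ℝ, (∀ᶠ x in l, f x = a + b * x) ∨ (∀ᶠ x in l, f x = a + b * Real.exp (k * x))

/-- `f` has the property of Baire -/
def BaireFun (f : ℝ → ℝ) : Prop := ∀ U : Set ℝ, IsOpen U → BaireMeasurableSet (f ⁻¹' U)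

/-- Baire class 1: a pointwise limit of continuous functions -/
def BaireOne (f : ℝ → ℝ) : Prop :=
  ∃ g : ℕ → ℝ → ℝ, (∀ n, Continuous (g n)) ∧ ∀ x, Tendsto (fun n => g n x) atTop (𝓝 (f x))

open Pool.Agent.H2.Vr

lemma iso_of {f : ℝ → ℝ} {c : ℝ} (hc : 0 < c)
    (φ : EuclideanSpace ℝ (Fin 2) ≃ᵢ EuclideanSpace ℝ (Fin 2))
    (h : φ '' graph (fun x => c * f x) = graph f) : ∃ p q r s u v, Iso f c p q r s u v := by
  set O := φ.toRealLinearIsometryEquiv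
  set e0 : EuclideanSpace ℝ (Fin 2) := WithLp.toLp 2 ![1, 0] with he0
  set e1 : EuclideanSpace ℝ (Fin 2) := WithLp.toLp 2 ![0, 1] with he1
  have hφ : ∀ x y : ℝ, φ (WithLp.toLp 2 ![x, y]) = x • O e0 + y • O e1 + φ 0 := fun x y => by
    have e : (WithLp.toLp 2 ![x, y] : EuclideanSpace ℝ (Fin 2)) = x • e0 + y • e1 := by
      ext i; fin_cases i <;> simp [he0, he1]
    rw [← map_smul, ← map_smul, ← map_add, ← e, IsometryEquiv.toRealLinearIsometryEquiv_apply]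
    simp
  have i00 := O.inner_map_map e0 e0
  have i11 := O.inner_map_map e1 e1
  have i01 := O.inner_map_map e0 e1
  simp only [PiLp.inner_apply, Fin.sum_univ_two, RCLike.inner_apply, conj_trivial] at i00 i11 i01
  have co : ∀ x x' : ℝ, φ (WithLp.toLp 2 ![x, c * f x]) = WithLp.toLp 2 ![x', f x'] →
      O e0 0 * x + O e1 0 * (c * f x) + φ 0 0 = x' ∧
      O e0 1 * x + O e1 1 * (c * f x) + φ 0 1 = f x' := fun x x' hx => by
    rw [hφ] at hx
    have h0 := congrArg (fun w : EuclideanSpace ℝ (Fin 2) => w 0) hx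
    have h1 := congrArg (fun w : EuclideanSpace ℝ (Fin 2) => w 1) hx
    simp at h0 h1
    exact ⟨by linarith, by linarith⟩
  refine ⟨O e0 0, O e1 0, O e0 1, O e1 1, φ 0 0, φ 0 1, hc, ?_, ?_, ?_, fun x => ?_, fun x' => ?_⟩
  · simp [he0] at i00; simp only [he0]; linarith
  · simp [he1] at i11; simp only [he1]; linarith
  · simp [he0, he1] at i01; simp only [he0, he1]; linarith
  · obtain ⟨x', hx⟩ : φ (WithLp.toLp 2 ![x, c * f x]) ∈ graph f := h ▸ ⟨_, ⟨x, rfl⟩, rfl⟩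
    exact ⟨x', co x x' hx.symm⟩
  · obtain ⟨_, ⟨x, rfl⟩, hx⟩ : (WithLp.toLp 2 ![x', f x'] : EuclideanSpace ℝ (Fin 2)) ∈
        φ '' graph (fun x => c * f x) := h.symm ▸ ⟨x', rfl⟩
    exact ⟨x, co x x' hx⟩

lemma main {C : Set ℝ} (hC : C ⊆ Ioi 0) (hu : ¬ C.Countable) {f : ℝ → ℝ} (hr : RigidFor C f)
    (hb : ∃ a b B : ℝ, a < b ∧ ∀ x ∈ Ioo a b, |f x| ≤ B) {l : Filter ℝ} [CountableInterFilter l]
    (hS : St l f) : Form l f := by
  obtain ⟨a, b, B, hab, hB⟩ := hb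
  rcases structure_thm hab hB hu (fun c hc => (hr c hc).elim fun φ h => iso_of (hC hc) φ h) with
    ⟨m, κ, h⟩ | h
  · exact ⟨m, κ, 0, Or.inl (Eventually.of_forall h)⟩
  · obtain ⟨a, b, k, h⟩ := exp_form hS h
    exact ⟨a, b, k, Or.inr h⟩

lemma bdd_of_cont {f : ℝ → ℝ} {x : ℝ} (h : ContinuousAt f x) :
    ∃ a b B : ℝ, a < b ∧ ∀ x ∈ Ioo a b, |f x| ≤ B := by
  have : ∀ᶠ y in 𝓝 x, |f y| ≤ |f x| + 1 := h.abs.eventually (ge_mem_nhds (by linarith))
  obtain ⟨a, b, hx, h2⟩ := mem_nhds_iff_exists_Ioo_subset.1 this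
  exact ⟨a, b, _, hx.1.trans hx.2, h2⟩

lemma bdd_of_one {f : ℝ → ℝ} (h : BaireOne f) :
    ∃ a b B : ℝ, a < b ∧ ∀ x ∈ Ioo a b, |f x| ≤ B := by
  obtain ⟨g, hg, ht⟩ := h
  obtain ⟨k, x, hx⟩ := nonempty_interior_of_iUnion_of_closed
    (f := fun k : ℕ => ⋂ n, {x | |g n x| ≤ k})
    (fun k => isClosed_iInter fun n => isClosed_le (hg n).abs continuous_const) (by
      refine eq_univ_of_forall fun x => ?_
      obtain ⟨M, hM⟩ := (ht x).abs.bddAbove_range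
      obtain ⟨k, hk⟩ := exists_nat_ge M
      exact mem_iUnion.2 ⟨k, mem_iInter.2 fun n => (hM ⟨n, rfl⟩).trans hk⟩)
  obtain ⟨a, b, hab, h2⟩ := mem_nhds_iff_exists_Ioo_subset.1 (mem_interior_iff_mem_nhds.1 hx)
  exact ⟨a, b, k, hab.1.trans hab.2, fun y hy =>
    le_of_tendsto' (ht y).abs fun n => mem_iInter.1 (h2 hy) n⟩

theorem result (C : Set ℝ) (f : ℝ → ℝ) (hC : C ⊆ Ioi 0) (hu : ¬ C.Countable) (hr : RigidFor C f)
    (hb : ∃ a b B : ℝ, a < b ∧ ∀ x ∈ Ioo a b, |f x| ≤ B) :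
    (AEMeasurable f volume → Form (ae volume) f) ∧ (BaireFun f → Form (residual ℝ) f) :=
  ⟨fun hm => main hC hu hr hb (St_ae hm), fun hm => main hC hu hr hb (St_res hm)⟩

end Pool.Agent.Results.MP_1755e3_an.Bounded
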